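import Pool.Agent.Y159.TG.Stm
import Pool.Agent.Helper601.Mertens

/-! Project TG: sums over the primes up to `H ^ (1 / 2 + 2 δ)`. -/

set_option autoImplicit false

namespace Pool.Agent.Y907.TG.Sm

open Finset
open Pool.Agent.Helper601.Mertens

theorem small : ∃ C : ℝ, 0 ≤ C ∧ ∀ F : Finset ℕ, (∀ p ∈ F, p.Prime) →
    ∑ p ∈ F, Real.log p / ((p : ℝ) * √(p : ℝ)) ≤ C := by
  have hs : Summable (fun n : ℕ => 4 / (n : ℝ) ^ (5 / 4 : ℝ)) := by
    have := Real.summable_nat_rpow_inv (p := (5 / 4 : ℝ)).2 (by norm_num)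
    have h2 := this.mul_left 4
    exact h2.congr fun n => (div_eq_mul_inv _ _).symm
  refine ⟨∑' n : ℕ, 4 / (n : ℝ) ^ (5 / 4 : ℝ), tsum_nonneg fun n => by positivity,
    fun F hF => ?_⟩
  refine le_trans ?_ (hs.sum_le_tsum F fun n _ => by positivity)
  refine Finset.sum_le_sum fun p hp => ?_
  have h2 : (2 : ℝ) ≤ p := by exact_mod_cast (hF p hp).two_le
  have hp0 : (0 : ℝ) < p := by linarith
  have hlog : Real.log p ≤ 4 * (p : ℝ) ^ (1 / 4 : ℝ) := by
    have := Real.log_le_rpow_div hp0.le (ε := 1 / 4) (by norm_num)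
    linarith
  have hsq : 0 < √(p : ℝ) := Real.sqrt_pos.2 hp0
  rw [div_le_div_iff₀ (by positivity) (by positivity)]
  have h3 : (p : ℝ) ^ (1 / 4 : ℝ) * (p : ℝ) ^ (5 / 4 : ℝ) = p * √(p : ℝ) := by
    rw [Real.sqrt_eq_rpow, ← Real.rpow_add hp0]
    conv_rhs => rw [← Real.rpow_one_add' hp0.le (by norm_num)]
    norm_num
  have h4 : 0 < (p : ℝ) ^ (5 / 4 : ℝ) := by positivity
  calc Real.log p * (p : ℝ) ^ (5 / 4 : ℝ) ≤ 4 * (p : ℝ) ^ (1 / 4 : ℝ) * (p : ℝ) ^ (5 / 4 : ℝ) :=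
        mul_le_mul_of_nonneg_right hlog h4.le
    _ = 4 * (p * √(p : ℝ)) := by rw [mul_assoc, h3]

theorem term {p : ℕ} (hp : p.Prime) {K : ℝ} (hK : 0 ≤ K) :
    2 * (Real.log p / p) - 4 * K * (Real.log p / ((p : ℝ) * √(p : ℝ))) ≤
      Real.log p / ((p : ℝ) / 2 + K * √(p : ℝ)) := by
  have h2 : (2 : ℝ) ≤ p := by exact_mod_cast hp.two_le
  have hp0 : (0 : ℝ) < p := by linarith
  have hl : 0 ≤ Real.log p := Real.log_nonneg (by linarith)
  set q := √(p : ℝ) with hq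
  have hq0 : 0 < q := Real.sqrt_pos.2 hp0
  have hqq : (p : ℝ) = q * q := (Real.mul_self_sqrt hp0.le).symm
  have h1 : 2 / (p : ℝ) - 4 * K / ((p : ℝ) * q) ≤ 1 / ((p : ℝ) / 2 + K * q) := by
    rw [le_div_iff₀ (by positivity), hqq]
    have e : (2 / (q * q) - 4 * K / (q * q * q)) * (q * q / 2 + K * q) =
        1 - 4 * K ^ 2 / (q * q) := by
      field_simp
      ring
    rw [e]
    have : 0 ≤ 4 * K ^ 2 / (q * q) := by positivity
    linarith
  calc 2 * (Real.log p / p) - 4 * K * (Real.log p / ((p : ℝ) * q)) =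
        Real.log p * (2 / (p : ℝ) - 4 * K / ((p : ℝ) * q)) := by ring
    _ ≤ Real.log p * (1 / ((p : ℝ) / 2 + K * q)) := mul_le_mul_of_nonneg_left h1 hl
    _ = _ := by ring

theorem sm : Pool.Agent.Y159.TG.TaskSum := by
  classical
  intro K A δ hK hδ hδ4
  obtain ⟨C, hC⟩ := mertens_log
  obtain ⟨S, hS0, hS⟩ := small
  have hC0 : 0 ≤ C := (abs_nonneg _).trans (hC 1 le_rfl)
  have hl2 : 0 ≤ Real.log 2 := Real.log_nonneg (by norm_num)
  set C2 : ℝ := 2 * Real.log 2 + 4 * C + 2 * A + 4 * K * S with hC2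
  have hC20 : 0 ≤ C2 := by positivity
  refine ⟨Real.exp (C2 / δ), Real.one_le_exp (by positivity), ?_⟩
  intro H hH E hE
  have hH1 : 1 ≤ H := (Real.one_le_exp (by positivity)).trans hH
  have hH0 : 0 < H := by linarith
  have hlH : C2 ≤ δ * Real.log H := by
    have := Real.log_le_log (Real.exp_pos _) hH
    rw [Real.log_exp, div_le_iff₀ hδ] at this
    linarith
  set Q : ℝ := H ^ (1 / 2 + 2 * δ) with hQ
  have hQ1 : 1 ≤ Q := Real.one_le_rpow hH1 (by positivity)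
  set N : ℕ := ⌊Q⌋₊ with hN
  have hNQ : (N : ℝ) ≤ Q := Nat.floor_le (by linarith)
  have hN1 : 1 ≤ N := Nat.le_floor (by exact_mod_cast hQ1)
  have hQN : Q < N + 1 := Nat.lt_floor_add_one Q
  have hN1' : (1 : ℝ) ≤ N := by exact_mod_cast hN1
  set M : ℕ := ⌊H ^ δ⌋₊ with hM
  have hd1 : 1 ≤ H ^ δ := Real.one_le_rpow hH1 hδ.le
  have hM1 : 1 ≤ M := Nat.le_floor (by exact_mod_cast hd1)
  have hMd : (M : ℝ) ≤ H ^ δ := Nat.floor_le (by linarith)
  have hM1' : (1 : ℝ) ≤ M := by exact_mod_cast hM1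
  set F := (range (N + 1)).filter (fun p : ℕ => p.Prime ∧ H ^ δ < (p : ℝ) ∧ p ∉ E) with hF
  have hFp : ∀ p ∈ F, p.Prime := fun p hp => (Finset.mem_filter.1 hp).2.1
  have hFN : F ⊆ PP N := by
    intro p hp
    obtain ⟨h1, h2, _⟩ := Finset.mem_filter.1 hp
    rw [Finset.mem_filter, Finset.mem_Icc]
    exact ⟨⟨h2.one_lt.le, by rw [Finset.mem_range] at h1; omega⟩, h2⟩
  constructor
  · -- the main sum
    have h1 : ∑ p ∈ F, (2 * (Real.log p / p) - 4 * K * (Real.log p / ((p : ℝ) * √(p : ℝ)))) ≤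
        ∑ p ∈ F, Real.log p / ((p : ℝ) / 2 + K * √(p : ℝ)) :=
      Finset.sum_le_sum fun p hp => term (hFp p hp) hK
    rw [Finset.sum_sub_distrib, ← Finset.mul_sum, ← Finset.mul_sum] at h1
    have h2 : 4 * K * ∑ p ∈ F, Real.log p / ((p : ℝ) * √(p : ℝ)) ≤ 4 * K * S :=
      mul_le_mul_of_nonneg_left (hS F hFp) (by positivity)
    -- the sum of log p / p
    have hpos : ∀ p : ℕ, 0 ≤ Real.log p / (p : ℝ) := fun p =>
      div_nonneg (Real.log_natCast_nonneg p) (Nat.cast_nonneg p)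
    have hle1 : ∀ p : ℕ, Real.log p / (p : ℝ) ≤ 1 := by
      intro p
      rcases Nat.eq_zero_or_pos p with h | h
      · rw [h]; simp
      · have : (0 : ℝ) < p := by exact_mod_cast h
        rw [div_le_one this]
        linarith [Real.log_le_sub_one_of_pos this]
    have h3 : PP N ⊆ F ∪ (PP M ∪ E) := by
      intro p hp
      obtain ⟨h4, h5⟩ := Finset.mem_filter.1 hp
      rw [Finset.mem_Icc] at h4
      rw [Finset.mem_union, Finset.mem_union]
      by_cases hE' : p ∈ E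
      · exact Or.inr (Or.inr hE')
      by_cases hpd : H ^ δ < (p : ℝ)
      · left
        rw [hF, Finset.mem_filter, Finset.mem_range]
        exact ⟨by omega, h5, hpd, hE'⟩
      · right; left
        rw [Finset.mem_filter, Finset.mem_Icc]
        exact ⟨⟨h4.1, Nat.le_floor (not_lt.1 hpd)⟩, h5⟩
    have h4 : ∑ p ∈ PP N, Real.log p / (p : ℝ) ≤ ∑ p ∈ F, Real.log p / (p : ℝ) +
        (∑ p ∈ PP M, Real.log p / (p : ℝ) + ∑ p ∈ E, Real.log p / (p : ℝ)) := by
      have hu : ∀ (X Y : Finset ℕ), ∑ p ∈ X ∪ Y, Real.log p / (p : ℝ) ≤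
          ∑ p ∈ X, Real.log p / (p : ℝ) + ∑ p ∈ Y, Real.log p / (p : ℝ) := by
        intro X Y
        rw [← Finset.sum_union_inter]
        have : 0 ≤ ∑ p ∈ X ∩ Y, Real.log p / (p : ℝ) := Finset.sum_nonneg fun p _ => hpos p
        linarith
      calc _ ≤ ∑ p ∈ F ∪ (PP M ∪ E), Real.log p / (p : ℝ) :=
            Finset.sum_le_sum_of_subset_of_nonneg h3 (fun p _ _ => hpos p)
        _ ≤ _ := (hu _ _).trans (by linarith [hu (PP M) E])
    have h5 : ∑ p ∈ E, Real.log p / (p : ℝ) ≤ A := by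
      calc ∑ p ∈ E, Real.log p / (p : ℝ) ≤ ∑ p ∈ E, (1 : ℝ) :=
            Finset.sum_le_sum fun p _ => hle1 p
        _ = E.card := by simp
        _ ≤ A := by exact_mod_cast hE
    have h6 := (abs_le.1 (hC N hN1)).1
    have h7 := (abs_le.1 (hC M hM1)).2
    have h8 : Real.log M ≤ δ * Real.log H := by
      rw [← Real.log_rpow hH0]
      exact Real.log_le_log (by linarith) hMd
    have h9 : (1 / 2 + 2 * δ) * Real.log H ≤ Real.log N + Real.log 2 := by
      rw [← Real.log_rpow hH0, ← hQ, ← Real.log_mul (by linarith) (by norm_num)]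
      exact Real.log_le_log (by linarith) (by linarith)
    nlinarith
  · calc ∑ p ∈ F, Real.log p ≤ ∑ p ∈ PP N, Real.log p :=
          Finset.sum_le_sum_of_subset_of_nonneg hFN (fun p _ _ => Real.log_natCast_nonneg p)
      _ ≤ 2 * N := theta_le N
      _ ≤ 4 * Q := by linarith

end Pool.Agent.Y907.TG.Sm
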